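import Pool.Agent.K1H35.SH.Stm2

/-! Piece LC of project SQ (helper35): local comparison of random regular graphs with uniform
graphs. -/

namespace Pool.Agent.K1H24.SQ

open Finset Pool.Agent.K1H35.SH

variable {n : ℕ}

theorem mem_nb (G : SimpleGraph (Fin n)) (v x : Fin n) : x ∈ nb G v ↔ G.Adj v x := by
  unfold nb; simp

theorem mem_reg (d : ℕ) (G : SimpleGraph (Fin n)) : G ∈ reg n d ↔ ∀ v, (nb G v).card = d := by
  unfold reg; simp

/-- the part of `G` inside `U` -/
def ins (G : SimpleGraph (Fin n)) (U : Finset (Fin n)) : SimpleGraph (Fin n) where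
  Adj x y := G.Adj x y ∧ x ∈ U ∧ y ∈ U
  symm := ⟨fun _ _ h => ⟨h.1.symm, h.2.2, h.2.1⟩⟩
  loopless := ⟨fun _ h => h.1.ne rfl⟩

/-- the part of `G` outside `U` -/
def outs (G : SimpleGraph (Fin n)) (U : Finset (Fin n)) : SimpleGraph (Fin n) where
  Adj x y := G.Adj x y ∧ ¬ (x ∈ U ∧ y ∈ U)
  symm := ⟨fun _ _ h => ⟨h.1.symm, fun h' => h.2 ⟨h'.2, h'.1⟩⟩⟩
  loopless := ⟨fun _ h => h.1.ne rfl⟩

theorem card_split (G : SimpleGraph (Fin n)) (U : Finset (Fin n)) (v : Fin n) :
    (nb G v).card = (nb (ins G U) v).card + (nb (outs G U) v).card := by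
  classical
  rw [← Finset.card_union_of_disjoint]
  · congr 1
    ext x
    simp only [Finset.mem_union, mem_nb, ins, outs]
    tauto
  · rw [Finset.disjoint_left]
    intro x h1 h2
    rw [mem_nb] at h1 h2
    exact h2.2 h1.2

theorem card_ins_zero (G : SimpleGraph (Fin n)) (U : Finset (Fin n)) {v : Fin n} (hv : v ∉ U) :
    (nb (ins G U) v).card = 0 := by
  rw [Finset.card_eq_zero]
  ext x
  simp [mem_nb, ins, hv]

theorem E2_eq (G : SimpleGraph (Fin n)) (U : Finset (Fin n)) :
    E2 G U = ∑ v, (nb (ins G U) v).card := by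
  classical
  unfold E2
  rw [Finset.card_filter, Fintype.sum_prod_type]
  refine Finset.sum_congr rfl fun v _ => ?_
  unfold nb
  rw [Finset.card_filter]
  refine Finset.sum_congr rfl fun x _ => ?_
  refine if_congr ?_ rfl rfl
  simp only [ins]
  tauto

theorem sum_deg (G : SimpleGraph (Fin n)) : ∑ v, (nb G v).card = 2 * G.edgeSet.ncard := by
  classical
  have h := G.sum_degrees_eq_twice_card_edges
  rw [← SimpleGraph.coe_edgeFinset, Set.ncard_coe_finset, ← h]
  refine Finset.sum_congr rfl fun v _ => ?_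
  rw [← SimpleGraph.card_neighborFinset_eq_degree]
  congr 1
  ext x
  rw [mem_nb, SimpleGraph.mem_neighborFinset]

open Classical in
theorem choose_le (U : Finset (Fin n)) (e : ℕ) :
    Nat.choose (U.card * (U.card - 1) / 2) e ≤
      ((univ : Finset (SimpleGraph (Fin n))).filter (fun G =>
        (∀ x y, G.Adj x y → x ∈ U ∧ y ∈ U) ∧ ∑ v, (nb G v).card = 2 * e)).card := by
  set Ω : Finset (Sym2 (Fin n)) := U.offDiag.image Sym2.mk.uncurry with hΩ
  have hΩc : Ω.card = U.card * (U.card - 1) / 2 := by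
    rw [hΩ, Sym2.card_image_offDiag, Nat.choose_two_right]
  have hΩm : ∀ s ∈ Ω, ¬ s.IsDiag ∧ ∀ x ∈ s, x ∈ U := by
    intro s hs
    rw [hΩ, Finset.mem_image] at hs
    obtain ⟨⟨x, y⟩, hxy, rfl⟩ := hs
    rw [Finset.mem_offDiag] at hxy
    refine ⟨fun h => hxy.2.2 h, fun z hz => ?_⟩
    rcases Sym2.mem_iff.1 hz with rfl | rfl
    · exact hxy.1
    · exact hxy.2.1
  rw [← hΩc, ← Finset.card_powersetCard]
  have hes : ∀ E : Finset (Sym2 (Fin n)), E ⊆ Ω →
      (SimpleGraph.fromEdgeSet (E : Set (Sym2 (Fin n)))).edgeSet = (E : Set (Sym2 (Fin n))) := by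
    intro E hE
    rw [SimpleGraph.edgeSet_fromEdgeSet]
    ext s
    constructor
    · exact fun h => h.1
    · exact fun h => ⟨h, (hΩm s (hE h)).1⟩
  apply Finset.card_le_card_of_injOn
    (fun E : Finset (Sym2 (Fin n)) => SimpleGraph.fromEdgeSet (E : Set (Sym2 (Fin n))))
  · intro E hE
    rw [Finset.mem_coe, Finset.mem_powersetCard] at hE
    simp only [Finset.coe_filter, Set.mem_ofPred_eq, Finset.mem_univ, true_and]
    refine ⟨fun x y hxy => ?_, ?_⟩
    · rw [SimpleGraph.fromEdgeSet_adj] at hxy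
      have h := (hΩm _ (hE.1 hxy.1)).2
      exact ⟨h x (Sym2.mem_mk_left x y), h y (Sym2.mem_mk_right x y)⟩
    · rw [sum_deg, hes E hE.1, Set.ncard_coe_finset, hE.2]
  · intro E1 h1 E2 h2 h
    rw [Finset.mem_coe, Finset.mem_powersetCard] at h1 h2
    have h3 := congrArg SimpleGraph.edgeSet h
    simp only at h3
    rw [hes E1 h1.1, hes E2 h2.1] at h3
    exact_mod_cast h3

theorem exists_bal (U : Finset (Fin n)) (T d : ℕ) (h0 : T ≤ d * U.card) :
    ∃ δ : Fin n → ℕ, (∀ v, v ∉ U → δ v = 0) ∧ ∑ v ∈ U, δ v = T ∧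
      (∀ i ∈ U, ∀ j ∈ U, δ i ≤ δ j + 1) ∧ ∀ v, δ v ≤ d := by
  classical
  rcases Nat.eq_zero_or_pos U.card with hu | hu
  · rw [hu, mul_zero] at h0
    have hT : T = 0 := by omega
    rw [Finset.card_eq_zero] at hu
    subst hu
    subst hT
    exact ⟨fun _ => 0, fun _ _ => rfl, by simp, by simp, fun _ => Nat.zero_le _⟩
  · obtain ⟨S, hS, hSc⟩ := Finset.exists_subset_card_eq (s := U) (n := T % U.card)
      (Nat.mod_lt _ hu).le
    have hdm := Nat.div_add_mod T U.card
    set q := T / U.card with hq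
    have hq1 : q ≤ d := by
      by_contra h
      push Not at h
      have : d * U.card < U.card * q := by
        rw [mul_comm]
        exact Nat.mul_lt_mul_of_pos_left h hu
      omega
    have hq2 : 0 < T % U.card → q < d := by
      intro hr
      by_contra h
      push Not at h
      have : d * U.card ≤ U.card * q := by
        rw [mul_comm]
        exact Nat.mul_le_mul_left _ h
      omega
    refine ⟨fun v => if v ∈ S then q + 1 else if v ∈ U then q else 0, ?_, ?_, ?_, ?_⟩
    · intro v hv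
      simp only
      rw [if_neg (fun h => hv (hS h)), if_neg hv]
    · have h1 : ∀ v ∈ U, (if v ∈ S then q + 1 else if v ∈ U then q else 0) =
          q + if v ∈ S then 1 else 0 := by
        intro v hv
        split_ifs <;> simp
      rw [Finset.sum_congr rfl h1, Finset.sum_add_distrib, Finset.sum_const, smul_eq_mul,
        Finset.sum_boole, Finset.filter_mem_eq_inter, Finset.inter_eq_right.2 hS, hSc]
      simpa using hdm
    · intro i hi j hj
      simp only [hi, hj, if_true]
      split_ifs <;> omega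
    · intro v
      simp only
      split_ifs with h1 h2
      · have h3 : 0 < T % U.card := by
          rw [← hSc]
          exact Finset.card_pos.2 ⟨v, h1⟩
        exact hq2 h3
      · exact hq1
      · exact Nat.zero_le _

/-- Monotonicity for `cntQ`. -/
theorem mono_cntQ (hSM : S_SM) (hM : S_MAJ) (U : Finset (Fin n)) (Q : Fin n → Fin n → Prop)
    (hQs : ∀ x y, Q x y → Q y x)
    (hQ : ∀ i ∈ U, ∀ j ∈ U, i ≠ j → ∀ k, k ≠ i → k ≠ j → (Q i k ↔ Q j k))
    (D D' : Fin n → ℕ) (h1 : ∀ v, v ∉ U → D v = D' v) (h2 : ∑ v ∈ U, D v = ∑ v ∈ U, D' v)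
    (h3 : ∀ i ∈ U, ∀ j ∈ U, D' i ≤ D' j + 1) : cntQ Q D ≤ cntQ Q D' :=
  hM n U (cntQ Q)
    (fun i hi j hj hij D hD => (hSM n Q i j hQs hij (hQ i hi j hj hij)).1 D hD)
    (fun i hi j hj hij D => (hSM n Q i j hQs hij (hQ i hi j hj hij)).2 D) D D' h1 h2 h3

theorem key {A B A' B' c : Prop} (h1 : A → c) (h2 : B → ¬ c) (h3 : A' → c) (h4 : B' → ¬ c)
    (h : (A ∨ B) ↔ (A' ∨ B')) : (A ↔ A') ∧ (B ↔ B') := by
  tauto

theorem t_LC (hSM : S_SM) (hM : S_MAJ) : S_LC := by
  classical
  intro n d U H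
  by_cases hz : cnt n d (fun G => ∀ x ∈ U, ∀ y ∈ U, (G.Adj x y ↔ H.Adj x y)) = 0
  · rw [hz, zero_mul]
    exact Nat.zero_le _
  -- a regular graph which agrees with `H` on `U`
  obtain ⟨G0, hG0r, hG0⟩ : ∃ G0 ∈ reg n d, ∀ x ∈ U, ∀ y ∈ U, (G0.Adj x y ↔ H.Adj x y) := by
    by_contra hcon
    push Not at hcon
    apply hz
    unfold cnt
    rw [Finset.card_eq_zero]
    ext G
    simp only [Finset.mem_filter, Finset.notMem_empty, iff_false, not_and]
    intro hG h
    obtain ⟨x, hx, y, hy, hxy⟩ := hcon G hG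
    have h5 := h x hx y hy
    clear hcon hz h
    tauto
  have hins : ∀ G : SimpleGraph (Fin n), (∀ x ∈ U, ∀ y ∈ U, (G.Adj x y ↔ H.Adj x y)) →
      ins G U = ins H U := by
    intro G hG
    ext x y
    simp only [ins]
    constructor
    · exact fun h => ⟨(hG x h.2.1 y h.2.2).1 h.1, h.2⟩
    · exact fun h => ⟨(hG x h.2.1 y h.2.2).2 h.1, h.2⟩
  set δ0 : Fin n → ℕ := fun v => (nb (ins H U) v).card with hδ0
  have hδ0d : ∀ v, δ0 v ≤ d := by
    intro v
    have h1 := card_split G0 U v
    rw [hins G0 hG0, (mem_reg d G0).1 hG0r v] at h1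
    rw [hδ0]
    simp only
    omega
  have hδ0o : ∀ v, v ∉ U → δ0 v = 0 := fun v hv => card_ins_zero H U hv
  set e := (ins H U).edgeSet.ncard with he
  have hE2 : E2 H U = 2 * e := by rw [E2_eq, sum_deg]
  have hE2' : E2 H U / 2 = e := by omega
  have hsum0 : ∑ v ∈ U, δ0 v = 2 * e := by
    rw [← hE2, E2_eq]
    apply Finset.sum_subset (Finset.subset_univ U)
    intro v _ hv
    exact card_ins_zero H U hv
  have hT : 2 * e ≤ d * U.card := by
    rw [← hsum0, mul_comm, ← smul_eq_mul, ← Finset.sum_const]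
    exact Finset.sum_le_sum fun v _ => hδ0d v
  obtain ⟨δ, hδo, hδs, hδb, hδd⟩ := exists_bal U (2 * e) d hT
  rw [hE2']
  set QU : Fin n → Fin n → Prop := fun x y => x ∈ U ∧ y ∈ U with hQU
  set QV : Fin n → Fin n → Prop := fun x y => ¬ (x ∈ U ∧ y ∈ U) with hQV
  -- (a)
  have ha : cnt n d (fun G => ∀ x ∈ U, ∀ y ∈ U, (G.Adj x y ↔ H.Adj x y)) ≤
      cntQ QV (fun v => d - δ0 v) := by
    unfold cnt cntQ
    apply Finset.card_le_card_of_injOn (fun G => outs G U)
    · intro G hG
      simp only [Finset.coe_filter, Set.mem_ofPred_eq, Finset.mem_univ, true_and] at hG ⊢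
      refine ⟨fun x y h => h.2, fun v => ?_⟩
      have h1 := card_split G U v
      rw [hins G hG.2, (mem_reg d G).1 hG.1 v] at h1
      simp only [hδ0]
      omega
    · intro G1 h1 G2 h2 h
      simp only [Finset.coe_filter, Set.mem_ofPred_eq] at h1 h2
      have h3 : outs G1 U = outs G2 U := h
      ext x y
      by_cases hxy : x ∈ U ∧ y ∈ U
      · exact (h1.2 x hxy.1 y hxy.2).trans (h2.2 x hxy.1 y hxy.2).symm
      · have e1 : (outs G1 U).Adj x y ↔ (outs G2 U).Adj x y := by rw [h3]
        exact ⟨fun h => (e1.1 ⟨h, hxy⟩).1, fun h => (e1.2 ⟨h, hxy⟩).1⟩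
  -- (b)
  have hQVk : ∀ i ∈ U, ∀ j ∈ U, i ≠ j → ∀ k, k ≠ i → k ≠ j → (QV i k ↔ QV j k) := by
    intro i hi j hj _ k _ _
    exact ⟨fun h h' => h ⟨hi, h'.2⟩, fun h h' => h ⟨hj, h'.2⟩⟩
  have hQUk : ∀ i ∈ U, ∀ j ∈ U, i ≠ j → ∀ k, k ≠ i → k ≠ j → (QU i k ↔ QU j k) := by
    intro i hi j hj _ k _ _
    exact ⟨fun h => ⟨hj, h.2⟩, fun h => ⟨hi, h.2⟩⟩
  have hQVs : ∀ x y, QV x y → QV y x := fun x y h h' => h ⟨h'.2, h'.1⟩
  have hQUs : ∀ x y, QU x y → QU y x := fun x y h => ⟨h.2, h.1⟩
  have hb : cntQ QV (fun v => d - δ0 v) ≤ cntQ QV (fun v => d - δ v) := by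
    apply mono_cntQ hSM hM U QV hQVs hQVk
    · intro v hv
      rw [hδ0o v hv, hδo v hv]
    · have e1 : ∑ v ∈ U, (d - δ0 v) + ∑ v ∈ U, δ0 v = ∑ v ∈ U, d := by
        rw [← Finset.sum_add_distrib]
        exact Finset.sum_congr rfl fun v _ => Nat.sub_add_cancel (hδ0d v)
      have e2 : ∑ v ∈ U, (d - δ v) + ∑ v ∈ U, δ v = ∑ v ∈ U, d := by
        rw [← Finset.sum_add_distrib]
        exact Finset.sum_congr rfl fun v _ => Nat.sub_add_cancel (hδd v)
      rw [hsum0] at e1
      rw [hδs] at e2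
      omega
    · intro i hi j hj
      have := hδb j hj i hi
      omega
  -- (c)
  have hc : Nat.choose (U.card * (U.card - 1) / 2) e ≤ U.card ^ U.card * cntQ QU δ := by
    refine (choose_le U e).trans ?_
    have hcard : (Fintype.piFinset (fun v : Fin n => if v ∈ U then range U.card else {0})).card =
        U.card ^ U.card := by
      rw [Fintype.card_piFinset]
      have e1 : ∀ v : Fin n, (if v ∈ U then range U.card else ({0} : Finset ℕ)).card =
          if v ∈ U then U.card else 1 := by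
        intro v
        split_ifs
        · exact Finset.card_range _
        · rfl
      rw [Finset.prod_congr rfl fun v _ => e1 v, Finset.prod_ite_mem, Finset.univ_inter,
        Finset.prod_const]
    rw [← hcard, mul_comm _ (cntQ QU δ)]
    apply Finset.card_le_mul_card_image_of_maps_to (f := fun G v => (nb G v).card)
    · intro G hG
      rw [Finset.mem_filter] at hG
      rw [Fintype.mem_piFinset]
      intro v
      split_ifs with hv
      · rw [Finset.mem_range]
        apply Finset.card_lt_card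
        refine ⟨fun x hx => (hG.2.1 v x ((mem_nb G v x).1 hx)).2, fun h => ?_⟩
        exact ((mem_nb G v v).1 (h hv)).ne rfl
      · rw [Finset.mem_singleton, Finset.card_eq_zero]
        ext x
        rw [mem_nb]
        constructor
        · exact fun h => absurd (hG.2.1 v x h).1 hv
        · exact fun h => absurd h (Finset.notMem_empty x)
    · intro η _
      by_cases hη : ∃ G : SimpleGraph (Fin n), (∀ x y, G.Adj x y → x ∈ U ∧ y ∈ U) ∧
          ∑ v, (nb G v).card = 2 * e ∧ (fun v => (nb G v).card) = η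
      · obtain ⟨G, hGU, hGs, hGη⟩ := hη
        have hη0 : ∀ v, v ∉ U → η v = 0 := by
          intro v hv
          rw [← hGη]
          simp only
          rw [Finset.card_eq_zero]
          ext x
          rw [mem_nb]
          constructor
          · exact fun h => absurd (hGU v x h).1 hv
          · exact fun h => absurd h (Finset.notMem_empty x)
        have hηs : ∑ v ∈ U, η v = 2 * e := by
          rw [← hGs]
          have e1 : ∑ v, (nb G v).card = ∑ v, η v :=
            Finset.sum_congr rfl fun v _ => congrFun hGη v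
          rw [e1]
          exact Finset.sum_subset (Finset.subset_univ U) fun v _ hv => hη0 v hv
        have h1 : cntQ QU η ≤ cntQ QU δ := by
          apply mono_cntQ hSM hM U QU hQUs hQUk
          · intro v hv
            rw [hη0 v hv, hδo v hv]
          · rw [hηs, hδs]
          · exact hδb
        refine le_trans ?_ h1
        unfold cntQ
        apply Finset.card_le_card
        intro G' hG'
        simp only [Finset.mem_filter, Finset.mem_univ, true_and] at hG' ⊢
        exact ⟨hG'.1.1, fun v => congrFun hG'.2 v⟩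
      · have h0 : ((Finset.univ.filter fun G : SimpleGraph (Fin n) =>
            (∀ x y, G.Adj x y → x ∈ U ∧ y ∈ U) ∧ ∑ v, (nb G v).card = 2 * e).filter
            fun G => (fun v => (nb G v).card) = η) = ∅ := by
          ext G
          simp only [Finset.mem_filter, Finset.mem_univ, true_and, Finset.notMem_empty, iff_false]
          exact fun h => hη ⟨G, h.1.1, h.1.2, h.2⟩
        rw [h0, Finset.card_empty]
        exact Nat.zero_le _
  -- (d)
  have hd : cntQ QU δ * cntQ QV (fun v => d - δ v) ≤ (reg n d).card := by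
    unfold cntQ
    rw [← Finset.card_product]
    apply Finset.card_le_card_of_injOn (fun p => p.1 ⊔ p.2)
    · rintro ⟨G1, G2⟩ hp
      simp only [Finset.coe_product, Finset.coe_filter, Set.mem_prod, Set.mem_ofPred_eq,
        Finset.mem_univ, true_and] at hp
      rw [Finset.mem_coe, mem_reg]
      intro v
      have h1 : (nb (G1 ⊔ G2) v).card = (nb G1 v).card + (nb G2 v).card := by
        rw [← Finset.card_union_of_disjoint]
        · congr 1
          ext x
          simp only [Finset.mem_union, mem_nb, SimpleGraph.sup_adj]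
        · rw [Finset.disjoint_left]
          intro x h1 h2
          rw [mem_nb] at h1 h2
          exact hp.2.1 v x h2 (hp.1.1 v x h1)
      change (nb (G1 ⊔ G2) v).card = d
      rw [h1, hp.1.2 v, hp.2.2 v]
      exact Nat.add_sub_cancel' (hδd v)
    · rintro ⟨G1, G2⟩ hp ⟨G1', G2'⟩ hp' h
      simp only [Finset.coe_product, Finset.coe_filter, Set.mem_prod, Set.mem_ofPred_eq,
        Finset.mem_univ, true_and] at hp hp'
      have h3 : G1 ⊔ G2 = G1' ⊔ G2' := h
      have h4 : ∀ x y, (G1.Adj x y ∨ G2.Adj x y) ↔ (G1'.Adj x y ∨ G2'.Adj x y) := by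
        intro x y
        have h7 : (G1 ⊔ G2).Adj x y ↔ (G1' ⊔ G2').Adj x y := by rw [h3]
        exact h7
      have h5 : G1 = G1' := by
        ext x y
        exact (key (hp.1.1 x y) (hp.2.1 x y) (hp'.1.1 x y) (hp'.2.1 x y) (h4 x y)).1
      have h6 : G2 = G2' := by
        ext x y
        exact (key (hp.1.1 x y) (hp.2.1 x y) (hp'.1.1 x y) (hp'.2.1 x y) (h4 x y)).2
      rw [h5, h6]
  calc cnt n d (fun G => ∀ x ∈ U, ∀ y ∈ U, (G.Adj x y ↔ H.Adj x y)) *
        Nat.choose (U.card * (U.card - 1) / 2) e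
      ≤ cntQ QV (fun v => d - δ v) * (U.card ^ U.card * cntQ QU δ) :=
        Nat.mul_le_mul (ha.trans hb) hc
    _ = U.card ^ U.card * (cntQ QU δ * cntQ QV (fun v => d - δ v)) := by ring
    _ ≤ U.card ^ U.card * (reg n d).card := Nat.mul_le_mul_left _ hd

end Pool.Agent.K1H24.SQ
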